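import Pool.Agent.H.MP_d6d0a6_lc.C

/-! For every alphabet size `n ≥ 5` there is a morphically primitive quasi-terminal-free pattern
with a variable all of whose telltale candidates are substantially ambiguous. -/

namespace Pool.Agent.Results.MP_0fc137_lc.Yes

variable {n : ℕ}

/-- The image of a pattern (variables `inl`, letters `inr`) under a substitution. -/
def subst (σ : ℕ → List (Fin n)) (α : List (ℕ ⊕ Fin n)) : List (Fin n) :=
  α.flatMap (Sum.elim σ fun a => [a])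

/-- The image of a pattern under a morphism of patterns fixing every letter. -/
def mor (χ : ℕ → List (ℕ ⊕ Fin n)) (α : List (ℕ ⊕ Fin n)) : List (ℕ ⊕ Fin n) :=
  α.flatMap (Sum.elim χ fun a => [.inr a])

def Primitive (α : List (ℕ ⊕ Fin n)) : Prop :=
  ¬∃ β φ ψ, β.length < α.length ∧ mor φ α = β ∧ mor ψ β = α

def QuasiTF (α : List (ℕ ⊕ Fin n)) : Prop := ∃ a b, a ≠ b ∧ .inr a ∉ α ∧ .inr b ∉ α

/-- Some letter occurs exactly once in `σ j` and in no `σ k` for another variable `k` of `α`. -/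
def Telltale (α : List (ℕ ⊕ Fin n)) (σ : ℕ → List (Fin n)) (j : ℕ) : Prop :=
  ∃ A, (σ j).count A = 1 ∧ ∀ k, .inl k ∈ α → k ≠ j → A ∉ σ k

def SubstAmb (α : List (ℕ ⊕ Fin n)) (σ : ℕ → List (Fin n)) (j : ℕ) : Prop :=
  ∃ τ, subst τ α = subst σ α ∧ τ j = []

open Pool.Agent.H.MP_d6d0a6_lc in
theorem result (n : ℕ) (hn : 5 ≤ n) : ∃ (α : List (ℕ ⊕ Fin n)) (i : ℕ), Primitive α ∧ QuasiTF α ∧
    .inl i ∈ α ∧ ∀ σ, Telltale α σ i → SubstAmb α σ i := by
  obtain ⟨a, b, c, h1, h2, h3⟩ := letters (n := n) (by omega)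
  have hk : 0 < n - 2 := by omega
  refine ⟨al a (n - 2), 2, ?_, ⟨b, c, h1, ?_, ?_⟩, y_al _ _ _ (by simp [Y]), ?_⟩
  · rintro ⟨_, φ, ψ, h4, rfl, h5⟩
    exact (prim a hk φ ψ h5).not_gt h4
  · exact fun h => (inr_al hk h).elim fun i hi => (h3 i hi.1).1 hi.2.symm
  · exact fun h => (inr_al hk h).elim fun i hi => (h3 i hi.1).2 hi.2.symm
  · rintro σ ⟨A, h4, h5⟩
    exact amb h2 σ (List.count_pos_iff.1 (h4 ▸ one_pos)) (h5 0 (y_al _ _ _ (by simp [Y])) (by simp))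
      (h5 1 (y_al _ _ _ (by simp [Y])) (by simp))

end Pool.Agent.Results.MP_0fc137_lc.Yes
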